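import Pool.Agent.LPC.Stmts

/-!
# Squad LPC, row SCA: scaling
-/

set_option autoImplicit false

noncomputable section

open MeasureTheory Filter Topology
open scoped RealInnerProductSpace Pointwise

namespace Pool.Agent.LPC.H32

open Pool.Agent.LPC

theorem vb_scale (n : ℕ) {t : ℝ} (ht : 0 < t) (R : ℝ) : vb n (t * R) = t ^ n * vb n R := by
  have h1 : Metric.ball (0 : V n) (t * R) = t • Metric.ball (0 : V n) R := by
    rw [smul_ball ht.ne', smul_zero, Real.norm_of_nonneg ht.le]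
  unfold vb
  rw [h1, Measure.addHaar_smul]
  simp [abs_of_pos (pow_pos ht n), ENNReal.toReal_ofReal (pow_pos ht n).le]

theorem cnt_scale {n : ℕ} {t : ℝ} (ht : 0 < t) (L M : AddSubgroup (V n))
    (h : ∀ v, v ∈ L ↔ t • v ∈ M) (R : ℝ) : cnt L R = cnt M (t * R) := by
  unfold cnt
  refine Nat.card_congr ?_
  have hb : ∀ v : V n, v ∈ Metric.ball (0 : V n) R ↔ t • v ∈ Metric.ball (0 : V n) (t * R) := by
    intro v
    rw [mem_ball_zero_iff, mem_ball_zero_iff, norm_smul, Real.norm_of_nonneg ht.le,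
      mul_lt_mul_iff_right₀ ht]
  exact
    { toFun := fun v => ⟨t • v.1, (h v.1).1 v.2.1, (hb v.1).1 v.2.2⟩
      invFun := fun w => ⟨t⁻¹ • w.1, (h _).2 (by rw [smul_inv_smul₀ ht.ne']; exact w.2.1),
        (hb _).2 (by rw [smul_inv_smul₀ ht.ne']; exact w.2.2)⟩
      left_inv := fun v => Subtype.ext (inv_smul_smul₀ ht.ne' v.1)
      right_inv := fun w => Subtype.ext (smul_inv_smul₀ ht.ne' w.1) }

theorem sca : ScaStmt := by
  intro n t κ L M hn ht h hM
  have h' : ∀ v, v ∈ L ↔ t • v ∈ M := by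
    intro v
    rw [h, inv_smul_smul₀ ht.ne']
  intro ε hε
  have htn : 0 < t ^ n := pow_pos ht n
  have h1 := hM (ε / t ^ n) (div_pos hε htn)
  have h2 : Tendsto (fun R : ℝ => t * R) atTop atTop := tendsto_id.const_mul_atTop ht
  filter_upwards [h2.eventually h1] with R hR
  rw [cnt_scale ht L M h' R]
  refine hR.trans (le_of_eq ?_)
  rw [vb_scale n ht R]
  field_simp

end Pool.Agent.LPC.H32
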